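import Pool.Agent.Helper3_PPX.Stmts

/-!
# Squad PPX, module STA
-/

set_option autoImplicit false

universe u

namespace Pool.Agent.PPX.H21

open MvPolynomial Pool.Agent.PPX

section

variable {k : Type u} [Field k]

theorem natDegree_lin (a b s t : k) (d₁ d₂ M : ℕ) (Q : P4 k) (hQ : Q ∈ Qd k d₁ d₂ M) :
    (lin a b s t Q).natDegree ≤ 2 * M := by
  unfold lin
  rw [aeval_def, eval₂_eq']
  apply Polynomial.natDegree_sum_le_of_forall_le
  intro m hm
  have hm' : ∀ v, m v ≤ ![d₁, d₂, M, M] v := by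
    have h1 : (Q.support : Set (Fin 4 →₀ ℕ)) ⊆ {s | ∀ v, s v ≤ ![d₁, d₂, M, M] v} :=
      (mem_restrictSupport_iff k).1 hQ
    exact h1 hm
  have h2 : m 2 ≤ M := hm' 2
  have h3 : m 3 ≤ M := hm' 3
  rw [Fin.prod_univ_four]
  simp only [Matrix.cons_val_zero, Matrix.cons_val_one, Matrix.cons_val]
  have e0 : (algebraMap k (Polynomial k) (coeff m Q)).natDegree ≤ 0 := by
    rw [Polynomial.algebraMap_eq]
    exact (Polynomial.natDegree_C _).le
  have e1 : (Polynomial.C a ^ m 0 : Polynomial k).natDegree ≤ 0 := by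
    rw [← Polynomial.C_pow]
    exact (Polynomial.natDegree_C _).le
  have e2 : (Polynomial.C b ^ m 1 : Polynomial k).natDegree ≤ 0 := by
    rw [← Polynomial.C_pow]
    exact (Polynomial.natDegree_C _).le
  have e3 : ((Polynomial.X : Polynomial k) ^ m 2).natDegree ≤ M := by
    rw [Polynomial.natDegree_X_pow]
    exact h2
  have e4 : ((Polynomial.C t - Polynomial.C s * Polynomial.X : Polynomial k) ^ m 3).natDegree ≤ M := by
    have h4 : (Polynomial.C t - Polynomial.C s * Polynomial.X : Polynomial k).natDegree ≤ 1 := by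
      refine (Polynomial.natDegree_sub_le _ _).trans (max_le ?_ ?_)
      · rw [Polynomial.natDegree_C]
        exact Nat.zero_le _
      · exact (Polynomial.natDegree_C_mul_le _ _).trans Polynomial.natDegree_X_le
    calc _ ≤ m 3 * _ := Polynomial.natDegree_pow_le
      _ ≤ m 3 * 1 := Nat.mul_le_mul_left _ h4
      _ ≤ M := by omega
  have h5 := Polynomial.natDegree_mul_le_of_le e0 (Polynomial.natDegree_mul_le_of_le
    (Polynomial.natDegree_mul_le_of_le (Polynomial.natDegree_mul_le_of_le e1 e2) e3) e4)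
  refine h5.trans ?_
  omega

end

theorem sta (hbox : BoxStmt.{u}) (hupp : UppStmt.{u}) : StaStmt.{u} := by
  intro k _ N₁ N₂ a s b t K₀ M₀ v D hS K d₁ d₂ hK hAdm
  classical
  have hb := hbox.1 (k := k) ![d₁, d₂, 2 * K, 2 * K]
  have hfb : Module.Finite k (Qd k d₁ d₂ (2 * K)) := hb.2.1
  have hcard : Module.finrank k (Qd k d₁ d₂ (2 * K)) =
      (d₁ + 1) * (d₂ + 1) * ((2 * K + 1) * (2 * K + 1)) := by
    have h1 := hb.2.2
    rw [Fin.prod_univ_four] at h1
    simp only [Matrix.cons_val_zero, Matrix.cons_val_one, Matrix.cons_val] at h1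
    rw [show Module.finrank k (Qd k d₁ d₂ (2 * K)) = _ from h1]
    ring
  have h1 := hupp a s b t K₀ M₀ v D hS d₁ d₂ (2 * K) (2 * (2 * K)) 0 hAdm
    (Qd k d₁ d₂ (2 * K)) le_rfl (fun Q hQ i j => natDegree_lin _ _ _ _ _ _ _ Q hQ)
  have h2 : ({q : Fin N₁ × Fin N₂ | Big (D q.1 q.2) 0}.ncard) ≤ N₁ * N₂ := by
    have h3 := Set.ncard_le_ncard (Set.subset_univ {q : Fin N₁ × Fin N₂ | Big (D q.1 q.2) 0})
      Set.finite_univ
    rwa [Set.ncard_univ, Nat.card_prod, Nat.card_fin, Nat.card_fin] at h3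
  -- the map to the quotient is not injective
  let f : Qd k d₁ d₂ (2 * K) →ₗ[k] P4 k ⧸ v :=
    (Ideal.Quotient.mkₐ k v).toLinearMap ∘ₗ (Qd k d₁ d₂ (2 * K)).subtype
  have hf : LinearMap.range f = (Qd k d₁ d₂ (2 * K)).map (Ideal.Quotient.mkₐ k v).toLinearMap := by
    rw [LinearMap.range_comp, Submodule.range_subtype]
  have h3 := LinearMap.finrank_range_add_finrank_ker f
  rw [hf, hcard] at h3
  have hlt : hh v (Qd k d₁ d₂ (2 * K)) < (d₁ + 1) * (d₂ + 1) * ((2 * K + 1) * (2 * K + 1)) := by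
    have h4 : (2 * (2 * K) + 1) * ({q : Fin N₁ × Fin N₂ | Big (D q.1 q.2) 0}.ncard) ≤
        (4 * K + 1) * (K * ((d₁ + 1) * (d₂ + 1))) := by
      have e : 2 * (2 * K) + 1 = 4 * K + 1 := by ring
      rw [e]
      exact Nat.mul_le_mul_left _ (h2.trans hK)
    have h5 : (4 * K + 1) * (K * ((d₁ + 1) * (d₂ + 1))) <
        (d₁ + 1) * (d₂ + 1) * ((2 * K + 1) * (2 * K + 1)) := by
      have e1 : (4 * K + 1) * (K * ((d₁ + 1) * (d₂ + 1))) =
          (d₁ + 1) * (d₂ + 1) * ((4 * K + 1) * K) := by ring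
      rw [e1]
      apply Nat.mul_lt_mul_of_pos_left
      · nlinarith
      · positivity
    omega
  have hker : LinearMap.ker f ≠ ⊥ := by
    intro h0
    rw [h0, finrank_bot, add_zero] at h3
    exact hlt.ne h3
  obtain ⟨Q, hQ, hQ0⟩ := Submodule.exists_mem_ne_zero_of_ne_bot hker
  have hQv : (Q : P4 k) ∈ v := by
    rw [LinearMap.mem_ker] at hQ
    change Ideal.Quotient.mk v (Q : P4 k) = 0 at hQ
    rwa [Ideal.Quotient.eq_zero_iff_mem] at hQ
  have hQ0' : (Q : P4 k) ≠ 0 := fun h => hQ0 (Subtype.ext h)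
  have hprod : (UniqueFactorizationMonoid.factors (Q : P4 k)).prod ∈ v := by
    obtain ⟨w, hw⟩ := UniqueFactorizationMonoid.factors_prod hQ0'
    have h6 : (UniqueFactorizationMonoid.factors (Q : P4 k)).prod * w ∈ v := by rwa [hw]
    exact (Ideal.mul_unit_mem_iff_mem v w.isUnit).1 h6
  obtain ⟨R, hR, hRv⟩ := (hS.prime.multiset_prod_mem_iff_exists_mem _).1 hprod
  refine ⟨R, hRv, UniqueFactorizationMonoid.irreducible_of_factor R hR, ?_⟩
  have hdvd : R ∣ (Q : P4 k) := UniqueFactorizationMonoid.dvd_of_mem_factors hR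
  have hQd := (hb.1 Q).1 Q.2
  apply (hb.1 R).2
  intro x
  exact (hbox.2.2 R Q hQ0' hdvd x).trans (hQd x)

end Pool.Agent.PPX.H21
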