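import Pool.Agent.Helper3_PPX.Stmts

/-!
# Squad PPX, module UPP
-/

set_option autoImplicit false

universe u

namespace Pool.Agent.PPX.H21

open MvPolynomial Pool.Agent.PPX

section

variable {k : Type u} [Field k]

instance finLT (m : ℕ) : Module.Finite k (Polynomial.degreeLT k m) :=
  Module.Finite.equiv (Polynomial.degreeLTEquiv k m).symm

theorem finrank_LT (m : ℕ) : Module.finrank k (Polynomial.degreeLT k m) = m := by
  rw [LinearEquiv.finrank_eq (Polynomial.degreeLTEquiv k m), Module.finrank_fin_fun]

/-- a map with values in the images of the polynomials of degree less than `m` -/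
theorem finrank_range_le {W : Type u} [AddCommGroup W] [Module k W] (I : Ideal (Polynomial k))
    (f : W →ₗ[k] Polynomial k ⧸ I) (m : ℕ)
    (hf : ∀ w, ∃ p : Polynomial k, p ∈ Polynomial.degreeLT k m ∧ Ideal.Quotient.mk I p = f w) :
    Module.finrank k (LinearMap.range f) ≤ m := by
  have hfin : Module.Finite k ((Polynomial.degreeLT k m).map
      (Ideal.Quotient.mkₐ k I).toLinearMap) := Module.Finite.map _ _
  have hle : LinearMap.range f ≤ (Polynomial.degreeLT k m).map
      (Ideal.Quotient.mkₐ k I).toLinearMap := by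
    rintro _ ⟨w, rfl⟩
    obtain ⟨p, hp, hpw⟩ := hf w
    exact ⟨p, hp, hpw⟩
  calc Module.finrank k (LinearMap.range f) ≤ Module.finrank k ((Polynomial.degreeLT k m).map
      (Ideal.Quotient.mkₐ k I).toLinearMap) := Submodule.finrank_mono hle
    _ ≤ m := (Submodule.finrank_map_le _ _).trans (finrank_LT _).le

theorem finrank_range_small {W : Type u} [AddCommGroup W] [Module k W]
    (I : Ideal (Polynomial k)) (f : W →ₗ[k] Polynomial k ⧸ I) (B : ℕ) (hI : ¬ Big I B) :
    Module.finrank k (LinearMap.range f) ≤ B := by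
  unfold Big at hI
  push Not at hI
  obtain ⟨q, hq, hqB, hq0⟩ := hI
  refine (finrank_range_le I f q.natDegree ?_).trans hqB
  intro w
  obtain ⟨p, hp⟩ := Ideal.Quotient.mk_surjective (f w)
  refine ⟨p % q, ?_, ?_⟩
  · rw [Polynomial.mem_degreeLT]
    have := Polynomial.degree_mod_lt p hq0
    rwa [Polynomial.degree_eq_natDegree hq0] at this
  · rw [← hp, Ideal.Quotient.eq]
    have h1 : p % q - p = q * (-(p / q)) := by
      have := EuclideanDomain.div_add_mod p q
      linear_combination this
    rw [h1]
    exact I.mul_mem_right _ hq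

/-- the codimension of an intersection of kernels -/
theorem codim {W : Type u} [AddCommGroup W] [Module k W] [Module.Finite k W] {ι : Type}
    [DecidableEq ι] (I : ι → Ideal (Polynomial k)) (f : ∀ q, W →ₗ[k] Polynomial k ⧸ I q)
    (c : ι → ℕ) (hc : ∀ q, Module.finrank k (LinearMap.range (f q)) ≤ c q) (s : Finset ι) :
    Module.finrank k W ≤ Module.finrank k (s.inf fun q => LinearMap.ker (f q) : Submodule k W) +
      ∑ q ∈ s, c q := by
  induction s using Finset.induction_on with
  | empty =>
    rw [Finset.inf_empty, Finset.sum_empty, add_zero]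
    exact (finrank_top k W).ge
  | insert q s hq ih =>
    rw [Finset.inf_insert, Finset.sum_insert hq]
    set J : Submodule k W := s.inf fun q => LinearMap.ker (f q) with hJ
    have e1 := LinearMap.finrank_range_add_finrank_ker ((f q) ∘ₗ J.subtype)
    have e2 : Module.finrank k (LinearMap.range ((f q) ∘ₗ J.subtype)) ≤
        Module.finrank k (LinearMap.range (f q)) :=
      Submodule.finrank_mono (LinearMap.range_comp_le_range _ _)
    have e3 : Module.finrank k (LinearMap.ker ((f q) ∘ₗ J.subtype)) ≤
        Module.finrank k (LinearMap.ker (f q) ⊓ J : Submodule k W) := by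
      refine LinearMap.finrank_le_finrank_of_injective
        (f := (J.subtype ∘ₗ (LinearMap.ker ((f q) ∘ₗ J.subtype)).subtype).codRestrict _ ?_) ?_
      · intro x
        exact ⟨x.2, x.1.2⟩
      · intro x y hxy
        have h5 := congrArg
          (fun z : (LinearMap.ker (f q) ⊓ J : Submodule k W) => (z : W)) hxy
        exact Subtype.ext (Subtype.ext h5)
    have e4 := hc q
    omega

end

theorem upp (hbox : BoxStmt.{u}) : UppStmt.{u} := by
  intro k _ N₁ N₂ a s b t K₀ M₀ v D hS d₁ d₂ M n B hAdm W hW hdeg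
  classical
  have hfb : Module.Finite k (Qd k d₁ d₂ M) := (hbox.1 ![d₁, d₂, M, M]).2.1
  have hfW : Module.Finite k W := Module.Finite.of_injective (Submodule.inclusion hW)
    (Submodule.inclusion_injective hW)
  let f : W →ₗ[k] P4 k ⧸ v := (Ideal.Quotient.mkₐ k v).toLinearMap ∘ₗ W.subtype
  have hf : LinearMap.range f = W.map (Ideal.Quotient.mkₐ k v).toLinearMap := by
    rw [LinearMap.range_comp, Submodule.range_subtype]
  let F : ∀ q : Fin N₁ × Fin N₂, W →ₗ[k] Polynomial k ⧸ D q.1 q.2 := fun q =>
    (Ideal.Quotient.mkₐ k (D q.1 q.2)).toLinearMap ∘ₗ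
      (lin (a q.1) (b q.2) (s q.1) (t q.2)).toLinearMap ∘ₗ W.subtype
  have hker : (Finset.univ.inf fun q => LinearMap.ker (F q) : Submodule k W) ≤
      LinearMap.ker f := by
    intro Q hQ
    rw [LinearMap.mem_ker]
    change Ideal.Quotient.mk v (Q : P4 k) = 0
    rw [Ideal.Quotient.eq_zero_iff_mem]
    apply hS.count d₁ d₂ M hAdm Q (hW Q.2)
    intro i j
    rw [Submodule.mem_finsetInf] at hQ
    have h1 := hQ (i, j) (Finset.mem_univ _)
    rw [LinearMap.mem_ker] at h1
    change Ideal.Quotient.mk (D i j) (lin (a i) (b j) (s i) (t j) Q) = 0 at h1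
    rwa [Ideal.Quotient.eq_zero_iff_mem] at h1
  have h1 := codim (fun q : Fin N₁ × Fin N₂ => D q.1 q.2) F
    (fun q => (if Big (D q.1 q.2) B then n + 1 else 0) + B) (fun q => by
      by_cases hq : Big (D q.1 q.2) B
      · rw [if_pos hq]
        refine (finrank_range_le _ _ (n + 1) ?_).trans (Nat.le_add_right _ _)
        intro Q
        refine ⟨lin (a q.1) (b q.2) (s q.1) (t q.2) Q, ?_, rfl⟩
        rw [Polynomial.mem_degreeLT]
        have h1 := hdeg Q Q.2 q.1 q.2
        refine lt_of_le_of_lt Polynomial.degree_le_natDegree ?_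
        exact_mod_cast Nat.lt_succ_of_le h1
      · rw [if_neg hq, zero_add]
        exact finrank_range_small _ _ _ hq) Finset.univ
  have h2 := Submodule.finrank_mono hker
  have h3 := LinearMap.finrank_range_add_finrank_ker f
  have h4 : ∑ q : Fin N₁ × Fin N₂, ((if Big (D q.1 q.2) B then n + 1 else 0) + B) =
      (n + 1) * ({q : Fin N₁ × Fin N₂ | Big (D q.1 q.2) B}.ncard) + B * (N₁ * N₂) := by
    rw [Finset.sum_add_distrib, ← Finset.sum_filter, Finset.sum_const, Finset.sum_const,
      smul_eq_mul, smul_eq_mul, Finset.card_univ, Fintype.card_prod, Fintype.card_fin,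
      Fintype.card_fin, mul_comm (N₁ * N₂) B, mul_comm _ (n + 1),
      Set.ncard_eq_toFinset_card', Set.toFinset_ofPred]
  rw [hh, ← hf]
  rw [h4] at h1
  generalize (n + 1) * ({q : Fin N₁ × Fin N₂ | Big (D q.1 q.2) B}.ncard) + B * (N₁ * N₂) = X at *
  generalize Module.finrank k (LinearMap.range f) = Y at *
  omega

end Pool.Agent.PPX.H21
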